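import Mathlib
import Pool.Agent.J6H19.OddBlowup.Core

/-!
# Blow-ups of odd cycles are not counterexamples to `H'(n)` when `n - 2m` is small

For `d ≥ 1` and `(2d - 1)(n - 2m) ≤ m`, if `χ(C_{2d+1}[K_m]) > n` then
`χ(K_n^{C_{2d+1}[K_m]}) = n`.
-/

namespace Pool.Agent.Results.MP_418764_co.SmallExcess

open Pool.Agent.J6H19.OddBlowup

/-- The lexicographic product `C[K_m]`: each vertex of `C` is replaced by a copy of `K_m` and each
edge of `C` by a complete bipartite graph. -/
def lexK {U : Type} (C : SimpleGraph U) (m : ℕ) : SimpleGraph (U × Fin m) where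
  Adj p q := C.Adj p.1 q.1 ∨ (p.1 = q.1 ∧ p.2 ≠ q.2)
  symm := ⟨by
    rintro p q (h | ⟨h1, h2⟩)
    · exact Or.inl h.symm
    · exact Or.inr ⟨h1.symm, h2.symm⟩⟩
  loopless := ⟨by
    rintro p (h | ⟨_, h2⟩)
    · exact C.loopless.irrefl _ h
    · exact h2 rfl⟩

/-- The exponential graph `K_n^G`: its vertices are all maps `V(G) → [n]`, and (distinct) maps `f`
and `g` are adjacent iff `f x ≠ g y` for every edge `xy` of `G`. (A map `f` with `f x ≠ f y` for all
edges `xy` is a proper `n`-colouring of `G`, so there is no such `f` when `χ(G) > n`.) -/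
def expK (n : ℕ) {V : Type} (G : SimpleGraph V) : SimpleGraph (V → Fin n) where
  Adj f g := f ≠ g ∧ ∀ x y, G.Adj x y → f x ≠ g y
  symm := ⟨by
    rintro f g ⟨h1, h2⟩
    exact ⟨h1.symm, fun x y hxy => (h2 y x hxy.symm).symm⟩⟩
  loopless := ⟨fun f h => h.1 rfl⟩

section aux

variable {d m n : ℕ}

/-- The restriction of a map to the blocks, indexed by natural numbers modulo `2d + 1`. -/
def blockMap (f : Fin (2 * d + 1) × Fin m → Fin n) : ℕ → Fin m → Fin n :=
  fun x i => f (Fin.ofNat (2 * d + 1) x, i)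

theorem adj_succ (hd : 1 ≤ d) (x : ℕ) :
    (SimpleGraph.cycleGraph (2 * d + 1)).Adj (Fin.ofNat (2 * d + 1) x)
      (Fin.ofNat (2 * d + 1) (x + 1)) := by
  rw [SimpleGraph.cycleGraph_adj']
  right
  rw [Fin.sub_def]
  simp only [Fin.val_ofNat]
  have h1 : x % (2 * d + 1) < 2 * d + 1 := Nat.mod_lt _ (by omega)
  rcases Nat.lt_or_ge (x % (2 * d + 1) + 1) (2 * d + 1) with h | h
  · have h2 : (x + 1) % (2 * d + 1) = x % (2 * d + 1) + 1 := by
      rw [Nat.add_mod, Nat.mod_eq_of_lt (show 1 < 2 * d + 1 by omega), Nat.mod_eq_of_lt h]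
    rw [h2, show 2 * d + 1 - x % (2 * d + 1) + (x % (2 * d + 1) + 1) = (2 * d + 1) + 1 by omega,
      Nat.add_mod_left, Nat.mod_eq_of_lt (by omega)]
  · have h3 : x % (2 * d + 1) = 2 * d := by omega
    have h2 : (x + 1) % (2 * d + 1) = 0 := by
      rw [Nat.add_mod, h3, Nat.mod_eq_of_lt (show 1 < 2 * d + 1 by omega), Nat.mod_self]
    rw [h2, h3, show 2 * d + 1 - 2 * d + 0 = 1 by omega, Nat.mod_eq_of_lt (by omega)]

theorem eq_ofNat_succ {u v : Fin (2 * d + 1)} (h : (v - u).val = 1) :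
    v = Fin.ofNat (2 * d + 1) (u.val + 1) := by
  rw [Fin.sub_def] at h
  simp only at h
  have hu := u.isLt
  have hv := v.isLt
  apply Fin.ext
  rw [Fin.val_ofNat]
  by_cases h1 : 2 * d + 1 - u.val + v.val < 2 * d + 1
  · rw [Nat.mod_eq_of_lt h1] at h
    have h2 : u.val + 1 = 2 * d + 1 := by omega
    rw [h2, Nat.mod_self]
    omega
  · rw [Nat.mod_eq_sub_mod (by omega), Nat.mod_eq_of_lt (by omega)] at h
    rw [Nat.mod_eq_of_lt (by omega)]
    omega

theorem ofNat_val (u : Fin (2 * d + 1)) : Fin.ofNat (2 * d + 1) u.val = u := by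
  apply Fin.ext
  rw [Fin.val_ofNat, Nat.mod_eq_of_lt u.isLt]

theorem nb_of_adj (hd : 1 ≤ d) {f g : Fin (2 * d + 1) × Fin m → Fin n}
    (h : (expK n (lexK (SimpleGraph.cycleGraph (2 * d + 1)) m)).Adj f g) :
    Nb (blockMap f) (blockMap g) := by
  refine ⟨fun x i j => h.2 _ _ (Or.inl (adj_succ hd x)),
    fun x i j => h.2 _ _ (Or.inl (adj_succ hd x).symm), fun x i j hij => h.2 _ _ (Or.inr ⟨rfl, hij⟩)⟩

theorem improper (hd : 1 ≤ d)
    (hχ : (n : ℕ∞) < (lexK (SimpleGraph.cycleGraph (2 * d + 1)) m).chromaticNumber)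
    (f : Fin (2 * d + 1) × Fin m → Fin n) (hf : Good (2 * d) (blockMap f)) :
    ∃ i j, blockMap f (2 * d) i = blockMap f (2 * d + 1) j := by
  by_contra hcon
  push Not at hcon
  have hinj : ∀ x, x ≤ 2 * d → Function.Injective (blockMap f x) := by
    intro x hx
    rcases Nat.lt_or_ge x (2 * d) with h | h
    · exact (hf x h).1
    · have h1 : x = (2 * d - 1) + 1 := by omega
      rw [h1]
      exact (hf (2 * d - 1) (by omega)).2.1
  have hval : ∀ (u : Fin (2 * d + 1)) i, f (u, i) = blockMap f u.val i := by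
    intro u i
    simp only [blockMap, ofNat_val]
  have key : ∀ (u v : Fin (2 * d + 1)) i j, (v - u).val = 1 → f (u, i) ≠ f (v, j) := by
    intro u v i j h
    have h1 := eq_ofNat_succ h
    have h2 : f (v, j) = blockMap f (u.val + 1) j := by rw [h1]; rfl
    rw [hval u i, h2]
    have hu := u.isLt
    rcases Nat.lt_or_ge u.val (2 * d) with h3 | h3
    · exact (hf u.val h3).2.2 i j
    · have h4 : u.val = 2 * d := by omega
      rw [h4]
      exact hcon i j
  have hcol : (lexK (SimpleGraph.cycleGraph (2 * d + 1)) m).Colorable n := by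
    refine ⟨SimpleGraph.Coloring.mk f ?_⟩
    rintro ⟨u, i⟩ ⟨v, j⟩ (h | ⟨h1, h2⟩)
    · rw [SimpleGraph.cycleGraph_adj'] at h
      rcases h with h | h
      · exact (key v u j i h).symm
      · exact key u v i j h
    · simp only at h1 h2
      subst h1
      rw [hval u i, hval u j]
      intro h3
      exact h2 (hinj u.val (by have := u.isLt; omega) h3)
  exact absurd (SimpleGraph.chromaticNumber_le_iff_colorable.mpr hcol) (not_le.mpr hχ)

end aux

/-- Let `d ≥ 1` and let `m, n` satisfy `n ≤ 2m` or `(2d - 1)(n - 2m) ≤ m` (truncated subtraction).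
If `χ(C_{2d+1}[K_m]) > n` then `χ(K_n^{C_{2d+1}[K_m]}) = n`, so `C_{2d+1}[K_m]` is not a
counterexample to `H'(n)`. -/
theorem result (d m n : ℕ) (hd : 1 ≤ d) (hmn : (2 * d - 1) * (n - 2 * m) ≤ m)
    (hχ : (n : ℕ∞) < (lexK (SimpleGraph.cycleGraph (2 * d + 1)) m).chromaticNumber) :
    (expK n (lexK (SimpleGraph.cycleGraph (2 * d + 1)) m)).chromaticNumber = n := by
  classical
  have hm : 0 < m := by
    rcases Nat.eq_zero_or_pos m with h | h
    · exfalso
      subst h
      have : (lexK (SimpleGraph.cycleGraph (2 * d + 1)) 0).Colorable 0 := by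
        refine ⟨SimpleGraph.Coloring.mk (fun p => p.2) ?_⟩
        rintro ⟨_, i⟩
        exact i.elim0
      have h1 := SimpleGraph.chromaticNumber_le_iff_colorable.mpr this
      have h2 := lt_of_lt_of_le hχ h1
      simp at h2
    · exact h
  apply le_antisymm
  · rw [SimpleGraph.chromaticNumber_le_iff_colorable]
    rcases Nat.eq_zero_or_pos n with hn | hn
    · subst hn
      refine ⟨SimpleGraph.Coloring.mk (fun f => f (⟨0, by omega⟩, ⟨0, hm⟩)) ?_⟩
      intro f
      exact (f (⟨0, by omega⟩, ⟨0, hm⟩)).elim0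
    · have : NeZero n := ⟨by omega⟩
      obtain ⟨c, hc⟩ := exists_colouring m n (2 * d - 1) (n - 2 * m) hmn (by omega)
        (Set.range (blockMap (d := d) (m := m) (n := n)))
        (by
          rintro F ⟨f, rfl⟩
          funext i
          have h1 : 2 * d - 1 + 2 = 2 * d + 1 := by omega
          rw [h1]
          have h2 : Fin.ofNat (2 * d + 1) (2 * d + 1) = Fin.ofNat (2 * d + 1) 0 := by
            apply Fin.ext
            simp
          simp only [blockMap, h2])
        (by
          rintro F ⟨f, rfl⟩ hF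
          have h1 : 2 * d - 1 + 1 = 2 * d := by omega
          have h2 : 2 * d - 1 + 2 = 2 * d + 1 := by omega
          rw [h1] at hF
          rw [h1, h2]
          exact improper hd hχ f hF)
      refine ⟨SimpleGraph.Coloring.mk (fun f => c (blockMap f)) ?_⟩
      intro f g hfg
      exact hc _ ⟨f, rfl⟩ _ ⟨g, rfl⟩ (nb_of_adj hd hfg)
  · have h1 : ((⊤ : SimpleGraph (Fin n)).chromaticNumber) = n := by
      rw [SimpleGraph.chromaticNumber_top, Fintype.card_fin]
    rw [← h1]
    refine SimpleGraph.chromaticNumber_mono_of_hom ⟨fun a => fun _ => a, ?_⟩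
    intro a b hab
    have hab' : a ≠ b := hab
    refine ⟨fun h => hab' (congrFun h (⟨0, by omega⟩, ⟨0, hm⟩)), fun _ _ _ => hab'⟩

end Pool.Agent.Results.MP_418764_co.SmallExcess
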